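import Pool.Agent.K3h2.MF.Rows

/-!
# The three rows are consecutive
-/

set_option autoImplicit false

namespace Pool.Agent.K3h2.MF

lemma not_rational_of_a {n : ℕ} {r : Row} (h : r.a ≠ 0) : ¬ IsRational n r := by
  rintro ⟨p, q, -, -, -, -, -, rfl⟩
  exact h rfl

lemma not_end_of_a {r : Row} (h : r.a ≠ 0) : ¬ IsEnd r := by
  rintro (rfl | rfl)
  · exact h rfl
  · exact h rfl

lemma mult_quadratic {n : ℕ} {r : Row} (h : IsQuadratic n r) : mult n r = 1 := by
  have ha : r.a ≠ 0 := by
    have := h.1
    omega
  unfold mult
  rw [if_neg (not_rational_of_a ha), if_pos h, if_neg (not_end_of_a ha)]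

theorem consecutive {m N : ℕ} (hm : 2 ≤ m) (hN : m ^ 2 * (m + 1) ≤ N) {L : List Row}
    (hL : IsList (m * N + 1) L) :
    ∃ x y z : EReal, [R1 m N x, R2 m N y, R3 m N z] <:+: L := by
  classical
  have hmR : (2 : ℝ) ≤ m := by exact_mod_cast hm
  have hNR : (m : ℝ) ^ 2 * (m + 1) ≤ N := by exact_mod_cast hN
  have hmZ : (2 : ℤ) ≤ m := by exact_mod_cast hm
  have hmN : (m : ℝ) < N := by nlinarith
  obtain ⟨s1, h1, e1⟩ := exists_root (A := 1) (B := (N : ℝ) + 1 - m) (C := m - 1) one_pos
    (by linarith) (by linarith)
  obtain ⟨s2, h2, e2⟩ := exists_root (A := (m : ℝ)) (B := m * ((N : ℝ) + 1) + m - 1)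
    (C := m * (m - 1) + 1) (by linarith) (by nlinarith) (by nlinarith)
  obtain ⟨s3, h3, e3⟩ := exists_root (A := (m : ℝ) - 1) (B := ((m : ℝ) - 1) * (N + 2))
    (C := (m - 1) * (m - 1) + 1) (by linarith) (by
      have : (0 : ℝ) < m - 1 := by linarith
      positivity) (by nlinarith)
  have h12 := s1_s2 hmR hNR h1 h2 e1 e2
  have h23 := s2_s3 hmR hNR h2 h3 e2 e3
  have g := s3_small hmR hNR h3 e3
  obtain ⟨x1, hx1⟩ : ∃ x : EReal, x = (((N : ℝ) + 1 + s1 : ℝ) : EReal) := ⟨_, rfl⟩
  obtain ⟨x2, hx2⟩ : ∃ x : EReal, x = (((N : ℝ) + 1 + s2 : ℝ) : EReal) := ⟨_, rfl⟩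
  obtain ⟨x3, hx3⟩ : ∃ x : EReal, x = (((N : ℝ) + 1 + s3 : ℝ) : EReal) := ⟨_, rfl⟩
  have q1 : IsQuadratic (m * N + 1) (R1 m N x1) := by rw [hx1]; exact quad1 hm hN h1 e1
  have q2 : IsQuadratic (m * N + 1) (R2 m N x2) := by rw [hx2]; exact quad2 hm hN h2 h23 g e2
  have q3 : IsQuadratic (m * N + 1) (R3 m N x3) := by rw [hx3]; exact quad3 hm hN h3 g e3
  have l12 : x1 < x2 := by
    rw [hx1, hx2, EReal.coe_lt_coe_iff]
    linarith
  have l23 : x2 < x3 := by
    rw [hx2, hx3, EReal.coe_lt_coe_iff]
    linarith
  refine ⟨x1, x2, x3, ?_⟩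
  -- the rows in the interval
  have hrange : ∀ r : Row, x1 ≤ r.root → r.root ≤ x3 → mult (m * N + 1) r ≠ 0 →
      r = R1 m N x1 ∨ r = R2 m N x2 ∨ r = R3 m N x3 := by
    intro r hr1 hr3 hmul
    by_cases hq : IsQuadratic (m * N + 1) r
    · obtain ⟨ha, han, hb, hc, -, θ, -, -, hroot, hrθ⟩ := hq
      rw [hrθ, hx1, EReal.coe_le_coe_iff] at hr1
      rw [hrθ, hx3, EReal.coe_le_coe_iff] at hr3
      obtain ⟨s, hs⟩ : ∃ s : ℝ, s = θ - (N + 1) := ⟨_, rfl⟩
      have hθ : θ = N + 1 + s := by rw [hs]; ring
      rw [hθ] at hroot hr1 hr3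
      push_cast at hb hc
      have hs0 : 0 < s := by linarith
      rcases core hm hN h1 h3 e1 e3 (by linarith) (by linarith) ha hb hc hroot with
        ⟨k1, k2, k3⟩ | ⟨k1, k2, k3⟩ | ⟨k1, k2, k3, k4⟩
      · left
        have hss : s = s1 := by
          apply unique_root (A := 1) (B := (N : ℝ) + 1 - m) one_pos (by linarith) hs0 h1
          rw [e1]
          rw [k1, k2, k3] at hroot
          push_cast at hroot
          linear_combination hroot
        ext
        · exact k1
        · exact k2
        · exact k3
        · rw [hrθ, hθ, hss, ← hx1]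
          rfl
      · right
        left
        have hss : s = s2 := by
          apply unique_root (A := (m : ℝ)) (B := m * ((N : ℝ) + 1) + m - 1) (by linarith)
            (by nlinarith) hs0 h2
          rw [e2]
          rw [k1, k2, k3] at hroot
          push_cast at hroot
          linear_combination hroot
        ext
        · exact k1
        · exact k2
        · exact k3
        · rw [hrθ, hθ, hss, ← hx2]
          rfl
      · right
        right
        ext
        · exact k1
        · exact k2
        · exact k3
        · rw [hrθ, hθ, k4, ← hx3]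
          rfl
    · exfalso
      by_cases hrat : IsRational (m * N + 1) r
      · obtain ⟨p, q, hp1, hpn, hq1, -, -, rfl⟩ := hrat
        change x1 ≤ (((p : ℝ) / (q : ℝ) : ℝ) : EReal) at hr1
        change (((p : ℝ) / (q : ℝ) : ℝ) : EReal) ≤ x3 at hr3
        rw [hx1, EReal.coe_le_coe_iff] at hr1
        rw [hx3, EReal.coe_le_coe_iff] at hr3
        have hqR : (1 : ℝ) ≤ q := by exact_mod_cast hq1
        have hq0 : (0 : ℝ) < q := by linarith
        rw [le_div_iff₀ hq0] at hr1
        rw [div_le_iff₀ hq0] at hr3
        have hpnR : (p : ℝ) ≤ m * N + 1 := by exact_mod_cast hpn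
        have hqm : (q : ℝ) < m := by
          by_contra hcon
          push Not at hcon
          nlinarith
        have hi1 : (0 : ℝ) < p - q * (N + 1) := by nlinarith
        have hi2 : (1 : ℝ) ≤ p - q * (N + 1) := by
          have h5 : ((0 : ℤ) : ℝ) < ((p - q * (N + 1) : ℤ) : ℝ) := by
            push_cast
            exact hi1
          have h6 : (0 : ℤ) < p - q * (N + 1) := by exact_mod_cast h5
          have h7 : (1 : ℤ) ≤ p - q * (N + 1) := by omega
          have h8 : ((1 : ℤ) : ℝ) ≤ ((p - q * (N + 1) : ℤ) : ℝ) := by exact_mod_cast h7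
          push_cast at h8
          exact h8
        nlinarith
      · by_cases hend : IsEnd r
        · rcases hend with rfl | rfl
          · change x1 ≤ (0 : EReal) at hr1
            rw [hx1, ← EReal.coe_zero, EReal.coe_le_coe_iff] at hr1
            have : (0 : ℝ) ≤ N := by positivity
            linarith
          · change (⊤ : EReal) ≤ x3 at hr3
            rw [hx3, top_le_iff] at hr3
            exact EReal.coe_ne_top _ hr3
        · apply hmul
          unfold mult
          rw [if_neg hrat, if_neg hq, if_neg hend]
  -- the middle part of the list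
  obtain ⟨A, B', hAB, hA, hB'⟩ := split_filter (fun r : Row => r.root) x1 L hL.1
  have hB's : B'.Pairwise (fun r s => r.root ≤ s.root) := by
    have := hL.1
    rw [hAB, List.pairwise_append] at this
    exact this.2.1
  obtain ⟨M, B, hMB, hM, hB⟩ := split_filter' (fun r : Row => r.root) x3 B' hB's
  have hMs : M.Pairwise (fun r s => r.root ≤ s.root) := by
    rw [hMB, List.pairwise_append] at hB's
    exact hB's.1
  have n12 : R1 m N x1 ≠ R2 m N x2 := by
    intro h
    have : x1 = x2 := congrArg Row.root h
    exact l12.ne this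
  have n13 : R1 m N x1 ≠ R3 m N x3 := by
    intro h
    have : x1 = x3 := congrArg Row.root h
    exact (l12.trans l23).ne this
  have n23 : R2 m N x2 ≠ R3 m N x3 := by
    intro h
    have : x2 = x3 := congrArg Row.root h
    exact l23.ne this
  have hmid : ∀ r : Row, x1 ≤ r.root → r.root ≤ x3 → M.count r = mult (m * N + 1) r := by
    intro r hr1 hr3
    rw [← hL.2 r, hAB, hMB, List.count_append, List.count_append]
    have c1 : A.count r = 0 := List.count_eq_zero.2 fun h => absurd (hA r h) (not_lt.2 hr1)
    have c2 : B.count r = 0 := List.count_eq_zero.2 fun h => absurd (hB r h) (not_lt.2 hr3)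
    omega
  have hM1 : ∀ r ∈ M, x1 ≤ r.root := fun r hr => hB' r (by rw [hMB]; exact List.mem_append_left _ hr)
  have hML : [R1 m N x1, R2 m N x2, R3 m N x3] = M := by
    apply sorted_unique (fun r : Row => r.root) _ _ _ hMs
    · intro r
      have hc : ∀ i j : Row, i = j → List.count i [j] = 1 := by
        rintro i j rfl
        simp
      by_cases k1 : r = R1 m N x1
      · subst k1
        rw [hmid _ le_rfl (l12.trans l23).le, mult_quadratic q1]
        rw [List.count_cons_self, List.count_eq_zero.2]
        simp only [List.mem_cons, List.not_mem_nil, or_false, not_or]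
        exact ⟨n12, n13⟩
      · by_cases k2 : r = R2 m N x2
        · subst k2
          rw [hmid _ l12.le l23.le, mult_quadratic q2]
          rw [List.count_cons_of_ne n12, List.count_cons_self, List.count_eq_zero.2]
          simp only [List.mem_cons, List.not_mem_nil, or_false]
          exact n23
        · by_cases k3 : r = R3 m N x3
          · subst k3
            rw [hmid _ (l12.trans l23).le le_rfl, mult_quadratic q3]
            rw [List.count_cons_of_ne n13, List.count_cons_of_ne n23]
            exact hc _ _ rfl
          · have c1 : List.count r [R1 m N x1, R2 m N x2, R3 m N x3] = 0 := by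
              rw [List.count_eq_zero]
              simp only [List.mem_cons, List.not_mem_nil, or_false, not_or]
              exact ⟨k1, k2, k3⟩
            rw [c1]
            symm
            rw [List.count_eq_zero]
            intro hr
            have d1 := hM1 r hr
            have d3 := hM r hr
            have d4 : M.count r ≠ 0 := (List.count_pos_iff.2 hr).ne'
            rw [hmid r d1 d3] at d4
            rcases hrange r d1 d3 d4 with h | h | h
            · exact k1 h
            · exact k2 h
            · exact k3 h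
    · intro r hr s hs hrs
      simp only [List.mem_cons, List.not_mem_nil, or_false] at hr hs
      have f1 : (R1 m N x1).root = x1 := rfl
      have f2 : (R2 m N x2).root = x2 := rfl
      have f3 : (R3 m N x3).root = x3 := rfl
      rcases hr with rfl | rfl | rfl <;> rcases hs with rfl | rfl | rfl <;>
        simp only [f1, f2, f3] at hrs
      · rfl
      · exact absurd hrs l12.ne
      · exact absurd hrs (l12.trans l23).ne
      · exact absurd hrs l12.ne'
      · rfl
      · exact absurd hrs l23.ne
      · exact absurd hrs (l12.trans l23).ne'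
      · exact absurd hrs l23.ne'
      · rfl
    · rw [List.pairwise_cons, List.pairwise_cons]
      refine ⟨?_, ?_, List.pairwise_singleton _ _⟩
      · intro r hr
        simp only [List.mem_cons, List.not_mem_nil, or_false] at hr
        rcases hr with rfl | rfl
        · exact l12.le
        · exact (l12.trans l23).le
      · intro r hr
        simp only [List.mem_cons, List.not_mem_nil, or_false] at hr
        rw [hr]
        exact l23.le
  refine ⟨A, B, ?_⟩
  rw [hML, hAB, hMB, List.append_assoc]

end Pool.Agent.K3h2.MF
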