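import Mathlib

/-!
# Mahler's lists of quadratic equations: definitions
-/

set_option autoImplicit false

namespace Pool.Agent.K3h2.MF

/-- a row of the list: an integer triple `(a, b, c)`, which stands for the equation
`a x² + b x + c = 0`, together with a root in `[0, ∞]` -/
@[ext]
structure Row where
  a : ℤ
  b : ℤ
  c : ℤ
  root : EReal

/-- the rows of the rational roots: `(0, q, -p)` with the root `p / q`, in lowest terms, where
`1 ≤ p, q ≤ n` -/
def IsRational (n : ℕ) (r : Row) : Prop :=
  ∃ p q : ℕ, 1 ≤ p ∧ p ≤ n ∧ 1 ≤ q ∧ q ≤ n ∧ p.Coprime q ∧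
    r = ⟨0, q, -p, (((p : ℝ) / (q : ℝ) : ℝ) : EReal)⟩

/-- the rows of the irrational roots: `(a, b, c)` primitive, `1 ≤ a ≤ n`, `|b|, |c| ≤ n`, with an
irrational root `θ > 0` of `a x² + b x + c` -/
def IsQuadratic (n : ℕ) (r : Row) : Prop :=
  1 ≤ r.a ∧ r.a ≤ n ∧ |r.b| ≤ n ∧ |r.c| ≤ n ∧
    (∀ d : ℤ, d ∣ r.a → d ∣ r.b → d ∣ r.c → IsUnit d) ∧
    ∃ θ : ℝ, 0 < θ ∧ Irrational θ ∧ (r.a : ℝ) * θ ^ 2 + r.b * θ + r.c = 0 ∧ r.root = (θ : EReal)

/-- the end points: `(0, 1, 0)` with the root `0` and `(0, 0, 1)` with the root `∞` -/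
def IsEnd (r : Row) : Prop := r = ⟨0, 1, 0, 0⟩ ∨ r = ⟨0, 0, 1, ⊤⟩

open scoped Classical in
/-- how often a row is entered into the list of order `n` -/
noncomputable def mult (n : ℕ) (r : Row) : ℕ :=
  (if IsRational n r then 2 else 0) + (if IsQuadratic n r then 1 else 0) + if IsEnd r then 1 else 0

open scoped Classical in
/-- `L` is the list of order `n`: it contains each row with its multiplicity and is ordered by
increasing root -/
def IsList (n : ℕ) (L : List Row) : Prop :=
  L.Pairwise (fun r s => r.root ≤ s.root) ∧ ∀ r, L.count r = mult n r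

/-- the determinant of three rows -/
def det (r s u : Row) : ℤ :=
  Matrix.det !![r.a, r.b, r.c; s.a, s.b, s.c; u.a, u.b, u.c]

/-! ### sorted lists -/

lemma split_filter {α : Type*} (f : α → EReal) (y : EReal) : ∀ L : List α,
    L.Pairwise (fun r s => f r ≤ f s) → ∃ A B : List α, L = A ++ B ∧ (∀ r ∈ A, f r < y) ∧
      ∀ r ∈ B, y ≤ f r
  | [], _ => ⟨[], [], rfl, by simp, by simp⟩
  | h :: L, hL => by
    rw [List.pairwise_cons] at hL
    by_cases hy : f h < y
    · obtain ⟨A, B, hAB, hA, hB⟩ := split_filter f y L hL.2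
      refine ⟨h :: A, B, by rw [hAB]; rfl, ?_, hB⟩
      intro r hr
      rcases List.mem_cons.1 hr with h1 | h1
      · rw [h1]; exact hy
      · exact hA r h1
    · refine ⟨[], h :: L, rfl, by simp, ?_⟩
      intro r hr
      rcases List.mem_cons.1 hr with h1 | h1
      · rw [h1]; exact not_lt.1 hy
      · exact (not_lt.1 hy).trans (hL.1 r h1)

lemma split_filter' {α : Type*} (f : α → EReal) (y : EReal) : ∀ L : List α,
    L.Pairwise (fun r s => f r ≤ f s) → ∃ A B : List α, L = A ++ B ∧ (∀ r ∈ A, f r ≤ y) ∧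
      ∀ r ∈ B, y < f r
  | [], _ => ⟨[], [], rfl, by simp, by simp⟩
  | h :: L, hL => by
    rw [List.pairwise_cons] at hL
    by_cases hy : f h ≤ y
    · obtain ⟨A, B, hAB, hA, hB⟩ := split_filter' f y L hL.2
      refine ⟨h :: A, B, by rw [hAB]; rfl, ?_, hB⟩
      intro r hr
      rcases List.mem_cons.1 hr with h1 | h1
      · rw [h1]; exact hy
      · exact hA r h1
    · refine ⟨[], h :: L, rfl, by simp, ?_⟩
      intro r hr
      rcases List.mem_cons.1 hr with h1 | h1
      · rw [h1]; exact not_le.1 hy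
      · exact (not_le.1 hy).trans_le (hL.1 r h1)

/-- two sorted lists with the same multiplicities agree, if rows with the same root agree -/
lemma sorted_unique {α : Type*} [DecidableEq α] (f : α → EReal) : ∀ L L' : List α,
    L.Pairwise (fun r s => f r ≤ f s) → L'.Pairwise (fun r s => f r ≤ f s) →
    (∀ r, L.count r = L'.count r) → (∀ r ∈ L, ∀ s ∈ L, f r = f s → r = s) → L = L'
  | [], L', _, _, hc, _ => by
    rcases L' with _ | ⟨h, L'⟩
    · rfl
    · exfalso
      have := hc h
      rw [List.count_nil, List.count_cons_self] at this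
      omega
  | h :: L, L', hL, hL', hc, hf => by
    have hmem : ∀ r, r ∈ h :: L ↔ r ∈ L' := by
      intro r
      rw [← List.count_pos_iff, ← List.count_pos_iff, hc]
    rcases L' with _ | ⟨h', L'⟩
    · exfalso
      exact absurd ((hmem h).1 (by simp)) (by simp)
    · have hLc := List.pairwise_cons.1 hL
      have hLc' := List.pairwise_cons.1 hL'
      have e1 : f h ≤ f h' := by
        rcases List.mem_cons.1 ((hmem h').2 (by simp)) with h1 | h1
        · rw [h1]
        · exact hLc.1 _ h1
      have e2 : f h' ≤ f h := by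
        rcases List.mem_cons.1 ((hmem h).1 (by simp)) with h1 | h1
        · rw [h1]
        · exact hLc'.1 _ h1
      have e3 : h = h' := hf h (by simp) h' ((hmem h').2 (by simp)) (le_antisymm e1 e2)
      subst e3
      congr 1
      apply sorted_unique f L L' hLc.2 hLc'.2
      · intro r
        have := hc r
        rw [List.count_cons, List.count_cons] at this
        omega
      · intro r hr s hs
        exact hf r (List.mem_cons_of_mem _ hr) s (List.mem_cons_of_mem _ hs)

end Pool.Agent.K3h2.MF
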