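import Pool.Agent.K3h2.MF.Defs

/-!
# Existence and uniqueness of the list
-/

set_option autoImplicit false

namespace Pool.Agent.K3h2.MF

lemma quadratic_finite (n : ℕ) : {r : Row | IsQuadratic n r}.Finite := by
  have hfin : ((Finset.Icc (1 : ℤ) n ×ˢ Finset.Icc (-(n : ℤ)) n ×ˢ Finset.Icc (-(n : ℤ)) n ×ˢ
      ({1, -1} : Finset ℤ) : Finset (ℤ × ℤ × ℤ × ℤ)) : Set (ℤ × ℤ × ℤ × ℤ)).Finite :=
    Finset.finite_toSet _
  refine (hfin.image (fun z : ℤ × ℤ × ℤ × ℤ => (⟨z.1, z.2.1, z.2.2.1,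
    (((-(z.2.1 : ℝ) + z.2.2.2 * Real.sqrt ((z.2.1 : ℝ) ^ 2 - 4 * z.1 * z.2.2.1)) /
      (2 * z.1) : ℝ) : EReal)⟩ : Row))).subset ?_
  rintro r ⟨ha, han, hb, hc, -, θ, -, -, hroot, hrθ⟩
  have haR : (1 : ℝ) ≤ r.a := by exact_mod_cast ha
  have h1 : (2 * r.a * θ + r.b) ^ 2 = (r.b : ℝ) ^ 2 - 4 * r.a * r.c := by
    linear_combination (4 * (r.a : ℝ)) * hroot
  have h2 : Real.sqrt ((r.b : ℝ) ^ 2 - 4 * r.a * r.c) = |2 * r.a * θ + r.b| := by
    rw [← h1, Real.sqrt_sq_eq_abs]
  have h3 : ∃ e : ℤ, (e = 1 ∨ e = -1) ∧ (e : ℝ) * |2 * r.a * θ + r.b| = 2 * r.a * θ + r.b := by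
    rcases le_total 0 (2 * r.a * θ + r.b) with h | h
    · exact ⟨1, Or.inl rfl, by rw [abs_of_nonneg h]; simp⟩
    · exact ⟨-1, Or.inr rfl, by rw [abs_of_nonpos h]; push_cast; ring⟩
  obtain ⟨e, he, hee⟩ := h3
  refine ⟨(r.a, r.b, r.c, e), ?_, ?_⟩
  · simp only [Finset.coe_product, Set.mem_prod, Finset.mem_coe, Finset.mem_Icc,
      Finset.mem_insert, Finset.mem_singleton]
    exact ⟨⟨ha, han⟩, abs_le.1 hb, abs_le.1 hc, he⟩
  · ext
    · rfl
    · rfl
    · rfl
    · change (((-(r.b : ℝ) + e * Real.sqrt ((r.b : ℝ) ^ 2 - 4 * r.a * r.c)) / (2 * r.a) : ℝ) :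
        EReal) = r.root
      rw [hrθ, h2, hee]
      congr 1
      field_simp
      ring

lemma rational_finite (n : ℕ) : {r : Row | IsRational n r}.Finite := by
  have hfin : ((Finset.range (n + 1) ×ˢ Finset.range (n + 1) : Finset (ℕ × ℕ)) :
      Set (ℕ × ℕ)).Finite := Finset.finite_toSet _
  refine (hfin.image (fun z : ℕ × ℕ => (⟨0, z.2, -z.1,
    (((z.1 : ℝ) / (z.2 : ℝ) : ℝ) : EReal)⟩ : Row))).subset ?_
  rintro r ⟨p, q, hp, hpn, hq, hqn, -, rfl⟩
  refine ⟨(p, q), ?_, rfl⟩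
  simp only [Finset.coe_product, Set.mem_prod, Finset.mem_coe, Finset.mem_range]
  omega

lemma end_finite : {r : Row | IsEnd r}.Finite := by
  have : {r : Row | IsEnd r} = {⟨0, 1, 0, 0⟩, ⟨0, 0, 1, ⊤⟩} := by
    ext r
    rfl
  rw [this]
  exact Set.toFinite _

open scoped Classical in
lemma count_set {S : Set Row} (hS : S.Finite) (r : Row) :
    hS.toFinset.val.count r = if r ∈ S then 1 else 0 := by
  by_cases h : r ∈ S
  · rw [if_pos h]
    exact Multiset.count_eq_one_of_mem hS.toFinset.nodup (by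
      rw [Finset.mem_val, Set.Finite.mem_toFinset]
      exact h)
  · rw [if_neg h, Multiset.count_eq_zero]
    rw [Finset.mem_val, Set.Finite.mem_toFinset]
    exact h

theorem exists_list (n : ℕ) : ∃ L, IsList n L := by
  classical
  let M : Multiset Row := (rational_finite n).toFinset.val + (rational_finite n).toFinset.val +
    (quadratic_finite n).toFinset.val + end_finite.toFinset.val
  refine ⟨M.toList.mergeSort (fun r s => decide (r.root ≤ s.root)), ?_, ?_⟩
  · have h := List.pairwise_mergeSort (le := fun r s : Row => decide (r.root ≤ s.root))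
      (fun a b c hab hbc => by
        simp only [decide_eq_true_eq] at hab hbc ⊢
        exact hab.trans hbc)
      (fun a b => by
        simp only [Bool.or_eq_true, decide_eq_true_eq]
        exact le_total _ _) M.toList
    exact h.imp (fun {a b} hab => by simpa using hab)
  · intro r
    rw [(List.mergeSort_perm M.toList _).count_eq r]
    have h1 : M.toList.count r = M.count r := by
      conv_rhs => rw [← Multiset.coe_toList M]
      rw [Multiset.coe_count]
    rw [h1]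
    simp only [M, Multiset.count_add, count_set, Set.mem_ofPred_eq]
    unfold mult
    by_cases k : IsRational n r
    · rw [if_pos k, if_pos k]
    · rw [if_neg k, if_neg k]

/-- Bezout's identity -/
lemma bezout {a b c : ℤ} (h : ∀ d : ℤ, d ∣ a → d ∣ b → d ∣ c → IsUnit d) :
    ∃ x y z : ℤ, a * x + b * y + c * z = 1 := by
  have h1 := Int.gcd_eq_gcd_ab b c
  have h2 := Int.gcd_eq_gcd_ab a (Int.gcd b c)
  have hd1 : ((Int.gcd a (Int.gcd b c) : ℕ) : ℤ) ∣ a := Int.gcd_dvd_left ..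
  have hd2 : ((Int.gcd a (Int.gcd b c) : ℕ) : ℤ) ∣ (Int.gcd b c : ℕ) := Int.gcd_dvd_right ..
  have hu := h _ hd1 (hd2.trans (Int.gcd_dvd_left ..)) (hd2.trans (Int.gcd_dvd_right ..))
  have h3 : ((Int.gcd a (Int.gcd b c) : ℕ) : ℤ) = 1 := by
    rcases Int.isUnit_iff.1 hu with h | h
    · exact h
    · omega
  rw [h3] at h2
  refine ⟨a.gcdA (Int.gcd b c), b.gcdA c * a.gcdB (Int.gcd b c),
    b.gcdB c * a.gcdB (Int.gcd b c), ?_⟩
  rw [h1] at h2
  rw [h1]
  linear_combination -h2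

lemma quad_dvd {a b c a' b' c' : ℤ} (h : ∀ d : ℤ, d ∣ a → d ∣ b → d ∣ c → IsUnit d)
    (h1 : a' * b = a * b') (h2 : a' * c = a * c') : a ∣ a' := by
  obtain ⟨x, y, z, hxyz⟩ := bezout h
  exact ⟨a' * x + b' * y + c' * z, by linear_combination (-a') * hxyz + y * h1 + z * h2⟩

lemma quad_unique {n : ℕ} {r s : Row} (hr : IsQuadratic n r) (hs : IsQuadratic n s)
    (h : r.root = s.root) : r = s := by
  obtain ⟨ha, -, -, -, hg, θ, -, hirr, hroot, hrθ⟩ := hr
  obtain ⟨ha', -, -, -, hg', θ', -, -, hroot', hrθ'⟩ := hs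
  have hθ : θ = θ' := by
    rw [hrθ, hrθ'] at h
    exact EReal.coe_injective h
  subst hθ
  have h1 : ((s.a * r.b - r.a * s.b : ℤ) : ℝ) * θ + ((s.a * r.c - r.a * s.c : ℤ) : ℝ) = 0 := by
    push_cast
    linear_combination (s.a : ℝ) * hroot - (r.a : ℝ) * hroot'
  have h2 : s.a * r.b - r.a * s.b = 0 := by
    by_contra hne
    apply hirr
    have hneR : ((s.a * r.b - r.a * s.b : ℤ) : ℝ) ≠ 0 := by exact_mod_cast hne
    refine ⟨-((s.a * r.c - r.a * s.c : ℤ) : ℚ) / ((s.a * r.b - r.a * s.b : ℤ) : ℚ), ?_⟩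
    push_cast at hneR h1 ⊢
    rw [div_eq_iff hneR]
    linear_combination -h1
  have h3 : s.a * r.c - r.a * s.c = 0 := by
    rw [h2, Int.cast_zero, zero_mul, zero_add] at h1
    exact_mod_cast h1
  have h4 : s.a * r.b = r.a * s.b := by linarith
  have h5 : s.a * r.c = r.a * s.c := by linarith
  have h6 : r.a ∣ s.a := quad_dvd hg h4 h5
  have h7 : s.a ∣ r.a := quad_dvd hg' h4.symm h5.symm
  have h8 : r.a = s.a := Int.dvd_antisymm (by omega) (by omega) h6 h7
  have h9 : s.a ≠ 0 := by omega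
  ext
  · exact h8
  · rw [h8] at h4
    exact mul_left_cancel₀ h9 h4
  · rw [h8] at h5
    exact mul_left_cancel₀ h9 h5
  · exact h

lemma rat_unique {n : ℕ} {r s : Row} (hr : IsRational n r) (hs : IsRational n s)
    (h : r.root = s.root) : r = s := by
  obtain ⟨p, q, hp, -, hq, -, hpq, rfl⟩ := hr
  obtain ⟨p', q', hp', -, hq', -, hpq', rfl⟩ := hs
  have h1 : (p : ℝ) / q = (p' : ℝ) / q' := EReal.coe_injective h
  have hq0 : (q : ℝ) ≠ 0 := by exact_mod_cast (by omega : q ≠ 0)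
  have hq0' : (q' : ℝ) ≠ 0 := by exact_mod_cast (by omega : q' ≠ 0)
  rw [div_eq_div_iff hq0 hq0'] at h1
  have h2 : p * q' = p' * q := by exact_mod_cast h1
  have h3 : p ∣ p' := hpq.dvd_of_dvd_mul_right ⟨q', by rw [h2]⟩
  have h4 : p' ∣ p := hpq'.dvd_of_dvd_mul_right ⟨q, by rw [← h2]⟩
  have h5 : p = p' := Nat.dvd_antisymm h3 h4
  subst h5
  have h6 : q = q' := (Nat.eq_of_mul_eq_mul_left (by omega) h2).symm
  subst h6
  rfl

lemma mult_cases {n : ℕ} {r : Row} (h : mult n r ≠ 0) :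
    IsRational n r ∨ IsQuadratic n r ∨ IsEnd r := by
  by_contra hcon
  push Not at hcon
  apply h
  unfold mult
  rw [if_neg hcon.1, if_neg hcon.2.1, if_neg hcon.2.2]

/-- the root of a rational or quadratic row is a positive real number -/
lemma root_real {n : ℕ} {r : Row} (h : IsRational n r ∨ IsQuadratic n r) :
    ∃ x : ℝ, 0 < x ∧ r.root = (x : EReal) := by
  rcases h with ⟨p, q, hp, -, hq, -, -, rfl⟩ | ⟨-, -, -, -, -, θ, hθ, -, -, hrθ⟩
  · have hpR : (0 : ℝ) < p := by exact_mod_cast (by omega : 0 < p)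
    have hqR : (0 : ℝ) < q := by exact_mod_cast (by omega : 0 < q)
    exact ⟨_, by positivity, rfl⟩
  · exact ⟨θ, hθ, hrθ⟩

lemma root_end {n : ℕ} {r s : Row} (h : IsRational n r ∨ IsQuadratic n r) (hs : IsEnd s) :
    r.root ≠ s.root := by
  obtain ⟨x, hx, hr⟩ := root_real h
  rw [hr]
  rcases hs with rfl | rfl
  · intro h0
    have : x = 0 := EReal.coe_eq_zero.1 h0
    exact hx.ne' this
  · exact EReal.coe_ne_top x

theorem unique_list {n : ℕ} {L L' : List Row} (h : IsList n L) (h' : IsList n L') : L = L' := by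
  classical
  apply sorted_unique (fun r : Row => r.root) L L' h.1 h'.1
  · intro r
    rw [h.2, h'.2]
  · intro r hr s hs hrs
    have hr' : mult n r ≠ 0 := by
      rw [← h.2 r]
      exact (List.count_pos_iff.2 hr).ne'
    have hs' : mult n s ≠ 0 := by
      rw [← h.2 s]
      exact (List.count_pos_iff.2 hs).ne'
    have hirr : ∀ r s : Row, IsRational n r → IsQuadratic n s → r.root = s.root → False := by
      rintro r s ⟨p, q, hp, -, hq, -, -, rfl⟩ ⟨-, -, -, -, -, θ, -, hi, -, hsθ⟩ h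
      rw [hsθ] at h
      have h1 : (p : ℝ) / q = θ := EReal.coe_injective h
      apply hi
      exact ⟨(p : ℚ) / q, by rw [← h1]; push_cast; rfl⟩
    rcases mult_cases hr' with k | k | k <;> rcases mult_cases hs' with l | l | l
    · exact rat_unique k l hrs
    · exact (hirr r s k l hrs).elim
    · exact absurd hrs (root_end (Or.inl k) l)
    · exact (hirr s r l k hrs.symm).elim
    · exact quad_unique k l hrs
    · exact absurd hrs (root_end (Or.inr k) l)
    · exact absurd hrs.symm (root_end (Or.inl l) k)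
    · exact absurd hrs.symm (root_end (Or.inr l) k)
    · rcases k with rfl | rfl <;> rcases l with rfl | rfl
      · rfl
      · exact absurd hrs (by simp)
      · exact absurd hrs (by simp)
      · rfl

end Pool.Agent.K3h2.MF
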