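import Pool.Agent.K3h2.MF.Defs

/-!
# The rows with a root in a short interval right of `N + 1`
-/

set_option autoImplicit false

namespace Pool.Agent.K3h2.MF

/-- a positive root -/
lemma exists_root {A B C : ℝ} (hA : 0 < A) (hB : 0 < B) (hC : 0 < C) :
    ∃ s : ℝ, 0 < s ∧ s * (B + A * s) = C := by
  have h0 : 0 ≤ B ^ 2 + 4 * A * C := by positivity
  refine ⟨(-B + Real.sqrt (B ^ 2 + 4 * A * C)) / (2 * A), ?_, ?_⟩
  · apply div_pos _ (by positivity)
    have h1 : B < Real.sqrt (B ^ 2 + 4 * A * C) := by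
      apply Real.lt_sqrt_of_sq_lt
      have : 0 < 4 * A * C := by positivity
      linarith
    linarith
  · have h1 := Real.sq_sqrt h0
    have h2 : (-B + Real.sqrt (B ^ 2 + 4 * A * C)) / (2 * A) *
        (B + A * ((-B + Real.sqrt (B ^ 2 + 4 * A * C)) / (2 * A))) =
        (Real.sqrt (B ^ 2 + 4 * A * C) ^ 2 - B ^ 2) / (4 * A) := by
      field_simp
      ring
    rw [h2, h1]
    field_simp
    ring

lemma unique_root {A B s s' : ℝ} (hA : 0 < A) (hB : 0 < B) (hs : 0 < s) (hs' : 0 < s')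
    (h : s * (B + A * s) = s' * (B + A * s')) : s = s' := by
  have h1 : (s - s') * (B + A * (s + s')) = 0 := by linear_combination h
  rcases mul_eq_zero.1 h1 with h2 | h2
  · linarith
  · exfalso
    have : 0 < B + A * (s + s') := by positivity
    linarith

section

variable {m N s1 s2 s3 : ℝ} (hm : 2 ≤ m) (hN : m ^ 2 * (m + 1) ≤ N) (h1 : 0 < s1) (h2 : 0 < s2)
  (h3 : 0 < s3) (e1 : s1 * ((N + 1 - m) + 1 * s1) = m - 1)
  (e2 : s2 * ((m * (N + 1) + m - 1) + m * s2) = m * (m - 1) + 1)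
  (e3 : s3 * ((m - 1) * (N + 2) + (m - 1) * s3) = (m - 1) * (m - 1) + 1)

include hm h3 e3 in
lemma s3_lt : s3 * (N + 1) < m := by
  have h4 : (m - 1) * (s3 * (N + 1) + s3 + s3 ^ 2 - (m - 1)) = 1 := by linear_combination e3
  have h5 : s3 * (N + 1) + s3 + s3 ^ 2 - (m - 1) ≤ 1 := by
    by_contra hcon
    push Not at hcon
    nlinarith
  nlinarith

include hm hN h3 e3 in
lemma s3_small : s3 * (m * (m + 1)) < 1 := by
  have h4 := s3_lt hm h3 e3
  have h5 : s3 * (m ^ 2 * (m + 1)) ≤ s3 * N := mul_le_mul_of_nonneg_left hN h3.le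
  have h6 : s3 * (m * (m + 1)) * m < 1 * m := by nlinarith
  exact lt_of_mul_lt_mul_right h6 (by linarith)

include hm hN h1 e1 in
lemma s1_small : s1 * (m ^ 2 + m - 1) < 1 := by
  have h5 : s1 * (N + 1 - m) < m - 1 := by nlinarith
  have h6 : (m - 1) * (m ^ 2 + m - 1) < N + 1 - m := by nlinarith
  have h7 : 0 < N + 1 - m := by nlinarith
  have h8 : 0 < m ^ 2 + m - 1 := by nlinarith
  by_contra hcon
  push Not at hcon
  have h9 : (N + 1 - m) ≤ s1 * (m ^ 2 + m - 1) * (N + 1 - m) := by nlinarith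
  have h10 : s1 * (N + 1 - m) * (m ^ 2 + m - 1) < (m - 1) * (m ^ 2 + m - 1) :=
    mul_lt_mul_of_pos_right h5 h8
  nlinarith

include hm hN h1 e1 in
lemma s1_gt : m - 1 < s1 * (N + 1) := by
  have h4 := s1_small hm hN h1 e1
  have h5 : s1 < m := by nlinarith
  nlinarith

include hm hN h1 h3 e1 e3 in
lemma s1_s3 : (m - 1) * s3 < m * s1 := by
  have h4 := s3_lt hm h3 e3
  have h5 := s1_gt hm hN h1 e1
  have h6 : 0 < N + 1 := by nlinarith
  have h7 : (m - 1) * s3 * (N + 1) < m * s1 * (N + 1) := by nlinarith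
  exact lt_of_mul_lt_mul_right h7 h6.le

include hm hN h1 h2 e1 e2 in
lemma s1_s2 : s1 < s2 := by
  by_contra hcon
  push Not at hcon
  have h4 := s1_small hm hN h1 e1
  have h5 : 0 < N + 1 := by nlinarith
  -- `u (s2) ≤ u (s1)`
  have h6 : s2 * (N + 1 + s2) ≤ s1 * (N + 1 + s1) := by nlinarith
  have h7 : m * (s2 * (N + 1 + s2)) + (m - 1) * s2 = m * (m - 1) + 1 := by linear_combination e2
  have h8 : s1 * (N + 1 + s1) = m - 1 + m * s1 := by linear_combination e1
  nlinarith

include hm hN h2 h3 e2 e3 in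
lemma s2_s3 : s2 < s3 := by
  by_contra hcon
  push Not at hcon
  have h4 := s3_small hm hN h3 e3
  have h5 : 0 < N + 1 := by nlinarith
  have h6 : s3 * (N + 1 + s3) ≤ s2 * (N + 1 + s2) := by nlinarith
  have h7 : m * (s2 * (N + 1 + s2)) + (m - 1) * s2 = m * (m - 1) + 1 := by linear_combination e2
  have h8 : (m - 1) * (s3 * (N + 1 + s3)) + (m - 1) * s3 = (m - 1) * (m - 1) + 1 := by
    linear_combination e3
  -- multiply
  have h9 : (m - 1) * (m * (m - 1) + 1 - (m - 1) * s2) ≥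
      m * ((m - 1) * (m - 1) + 1 - (m - 1) * s3) := by
    have e4 : (m - 1) * (m * (m - 1) + 1 - (m - 1) * s2) = m * (m - 1) * (s2 * (N + 1 + s2)) := by
      linear_combination -(m - 1) * h7
    have e5 : m * ((m - 1) * (m - 1) + 1 - (m - 1) * s3) = m * (m - 1) * (s3 * (N + 1 + s3)) := by
      linear_combination -m * h8
    rw [e4, e5]
    have : 0 ≤ m * (m - 1) := by nlinarith
    exact mul_le_mul_of_nonneg_left h6 this
  nlinarith

end

/-- the rows with a root in the interval -/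
theorem core {m N : ℕ} (hm : 2 ≤ m) (hN : m ^ 2 * (m + 1) ≤ N) {s1 s3 s : ℝ} (h1 : 0 < s1)
    (h3 : 0 < s3) (e1 : s1 * (((N : ℝ) + 1 - m) + 1 * s1) = m - 1)
    (e3 : s3 * (((m : ℝ) - 1) * (N + 2) + (m - 1) * s3) = (m - 1) * (m - 1) + 1)
    (hs1 : s1 ≤ s) (hs3 : s ≤ s3) {a b c : ℤ} (ha : 1 ≤ a) (hb : |b| ≤ m * N + 1)
    (hc : |c| ≤ m * N + 1)
    (hroot : (a : ℝ) * ((N : ℝ) + 1 + s) ^ 2 + b * ((N : ℝ) + 1 + s) + c = 0) :
    (a = 1 ∧ b = -(N + m + 1) ∧ c = m * N + 1) ∨
    (a = m ∧ b = -(m * N + 1) ∧ c = -((m - 1) * N + m ^ 2)) ∨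
    (a = m - 1 ∧ b = -((m - 1) * N) ∧ c = -((m - 1) * N + (m ^ 2 - m + 1)) ∧ s = s3) := by
  have hmR : (2 : ℝ) ≤ m := by exact_mod_cast hm
  have hNR : (m : ℝ) ^ 2 * (m + 1) ≤ N := by exact_mod_cast hN
  have hmZ : (2 : ℤ) ≤ m := by exact_mod_cast hm
  have haR : (1 : ℝ) ≤ a := by exact_mod_cast ha
  have g1 := s3_small hmR hNR h3 e3
  have g2 := s1_s3 hmR hNR h1 h3 e1 e3
  have g3 := s1_gt hmR hNR h1 e1
  have hs : 0 < s := h1.trans_le hs1
  have hN0 : (12 : ℝ) ≤ N := by nlinarith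
  obtain ⟨E, hE⟩ : ∃ E : ℤ, E = a * (N + 1) + b := ⟨_, rfl⟩
  obtain ⟨I, hI⟩ : ∃ I : ℤ, I = -(a * (N + 1) ^ 2 + b * (N + 1) + c) - a * (m - 1) := ⟨_, rfl⟩
  have hER : (E : ℝ) = a * ((N : ℝ) + 1) + b := by rw [hE]; push_cast; ring
  have hIR : (I : ℝ) = -(a * ((N : ℝ) + 1) ^ 2 + b * (N + 1) + c) - a * (m - 1) := by
    rw [hI]; push_cast; ring
  obtain ⟨u, hu⟩ : ∃ u : ℝ, u = s * (N + 1 + s) - (m - 1) := ⟨_, rfl⟩
  have key : (I : ℝ) = a * u + E * s := by
    rw [hIR, hER, hu]
    linear_combination -hroot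
  have hcE : -(c : ℝ) = (N + 1 + s) * (a * s + E) := by
    rw [hER]
    linear_combination -hroot
  -- bounds for `E`
  have hcR : |(c : ℝ)| ≤ m * N + 1 := by exact_mod_cast hc
  have hbR : |(b : ℝ)| ≤ m * N + 1 := by exact_mod_cast hb
  have hx0 : 0 < (N : ℝ) + 1 + s := by linarith
  have hE1 : |(a : ℝ) * s + E| < m := by
    have h4 : |(N + 1 + s) * ((a : ℝ) * s + E)| ≤ m * N + 1 := by
      rw [← hcE, abs_neg]
      exact hcR
    rw [abs_mul, abs_of_pos hx0] at h4
    by_contra hcon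
    push Not at hcon
    nlinarith
  obtain ⟨hE2, hE3⟩ := abs_lt.1 hE1
  have hEm : E ≤ m - 1 := by
    have h4 : (E : ℝ) < m := by nlinarith
    have h5 : E < m := by exact_mod_cast h4
    omega
  have hEmR : (E : ℝ) ≤ m - 1 := by exact_mod_cast hEm
  -- `a ≤ m`
  have ham : a ≤ m := by
    have h4 := (abs_le.1 hbR).1
    have h5 : (a : ℝ) * ((N : ℝ) + 1) ≤ m * (N + 1) := by
      have : (a : ℝ) * ((N : ℝ) + 1) = E - b := by rw [hER]; ring
      rw [this]
      nlinarith
    have h6 : (a : ℝ) ≤ m := le_of_mul_le_mul_right h5 (by linarith)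
    exact_mod_cast h6
  have hamR : (a : ℝ) ≤ m := by exact_mod_cast ham
  have hms : (m : ℝ) * s * (m + 1) < 1 := by nlinarith
  have hms' : (m : ℝ) * s < 1 := by nlinarith
  have hE4 : -(m : ℤ) ≤ E := by
    have h4 : (-(m : ℝ) - 1) < E := by nlinarith
    have h5 : -(m : ℤ) - 1 < E := by exact_mod_cast h4
    omega
  have hE4R : -(m : ℝ) ≤ E := by exact_mod_cast hE4
  -- bounds for `u`
  have hu1 : m * s1 ≤ u := by
    have h4 : s1 * (N + 1 + s1) ≤ s * (N + 1 + s) := by nlinarith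
    rw [hu]
    linarith [e1, show s1 * (((N : ℝ) + 1 - m) + 1 * s1) = s1 * (N + 1 + s1) - m * s1 by ring]
  have hu3 : (m - 1) * u ≤ 1 - (m - 1) * s3 := by
    have h4 : s * (N + 1 + s) ≤ s3 * (N + 1 + s3) := by nlinarith
    have h5 : ((m : ℝ) - 1) * (s * (N + 1 + s)) ≤ (m - 1) * (s3 * (N + 1 + s3)) :=
      mul_le_mul_of_nonneg_left h4 (by linarith)
    rw [hu]
    linarith [e3, show s3 * (((m : ℝ) - 1) * (N + 2) + (m - 1) * s3) =
      (m - 1) * (s3 * (N + 1 + s3)) + (m - 1) * s3 by ring]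
  have hu0 : 0 < u := lt_of_lt_of_le (by positivity) hu1
  have hEs1 : -(m * s) ≤ (E : ℝ) * s := by nlinarith
  have hEs2 : (E : ℝ) * s ≤ (m - 1) * s := mul_le_mul_of_nonneg_right hEmR hs.le
  have hau : (a : ℝ) * ((m - 1) * u) ≤ a * (1 - (m - 1) * s3) :=
    mul_le_mul_of_nonneg_left hu3 (by linarith)
  have hpos3 : 0 < 1 - ((m : ℝ) - 1) * s3 := by nlinarith
  -- `0 ≤ I ≤ 1`
  have hI0 : 0 ≤ I := by
    have h4 : (-1 : ℝ) < I := by
      rw [key]
      have : 0 < (a : ℝ) * u := by positivity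
      linarith
    have h5 : (-1 : ℤ) < I := by exact_mod_cast h4
    omega
  have hmain : ((m : ℝ) - 1) * I ≤ a * (1 - (m - 1) * s3) + (m - 1) * (E * s) := by
    rw [key]
    linarith [show ((m : ℝ) - 1) * (a * u + E * s) = a * ((m - 1) * u) + (m - 1) * (E * s) by ring]
  have hs33 : ((m : ℝ) - 1) * (E * s) ≤ (m - 1) * ((m - 1) * s3) := by
    apply mul_le_mul_of_nonneg_left _ (by linarith)
    exact hEs2.trans (mul_le_mul_of_nonneg_left hs3 (by linarith))
  have hI1 : I ≤ 1 := by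
    have h4 : (I : ℝ) < 2 := by
      by_contra hcon
      push Not at hcon
      have h5 : ((m : ℝ) - 1) * 2 ≤ (m - 1) * I := mul_le_mul_of_nonneg_left hcon (by linarith)
      have h6 : (a : ℝ) * (1 - (m - 1) * s3) ≤ m * (1 - (m - 1) * s3) :=
        mul_le_mul_of_nonneg_right hamR hpos3.le
      nlinarith
    have h5 : I < 2 := by exact_mod_cast h4
    omega
  have hI01 : I = 0 ∨ I = 1 := by omega
  rcases hI01 with hI' | hI'
  · -- the first row
    left
    have k0 : (a : ℝ) * u = -(E * s) := by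
      have : (I : ℝ) = 0 := by rw [hI']; simp
      rw [this] at key
      linarith
    have k1 : (a : ℝ) * (m * s1) ≤ m * s := by
      have := mul_le_mul_of_nonneg_left hu1 (by linarith : (0 : ℝ) ≤ a)
      nlinarith
    have k2 : (a : ℝ) * s1 ≤ s3 := by
      have h4 : (m : ℝ) * (a * s1) ≤ m * s3 := by nlinarith
      exact le_of_mul_le_mul_left h4 (by linarith)
    have k3 : a = 1 := by
      by_contra hne
      have h4 : 2 ≤ a := by omega
      have h5 : (2 : ℝ) ≤ a := by exact_mod_cast h4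
      nlinarith
    have k4 : E = -m := by
      have h4 : (m : ℝ) * s1 ≤ -(E * s) := by
        rw [← k0, k3]
        push_cast
        linarith
      have h5 : ((m : ℝ) - 1) * s < -E * s := by nlinarith
      have h6 : (m : ℝ) - 1 < -E := lt_of_mul_lt_mul_right h5 hs.le
      have h7 : (m : ℤ) - 1 < -E := by exact_mod_cast h6
      omega
    refine ⟨k3, ?_, ?_⟩
    · rw [k3] at hE
      linarith
    · rw [k3, hI'] at hI
      rw [k3] at hE
      have hb' : b = -(N + m + 1) := by linarith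
      rw [hb'] at hI
      linear_combination hI
  · right
    have k0 : (a : ℝ) * u + E * s = 1 := by
      have : (I : ℝ) = 1 := by rw [hI']; simp
      rw [← key, this]
    rcases eq_or_lt_of_le ham with k1 | k1
    · -- the second row
      left
      have k2 : E = m - 1 := by
        have h4 := (abs_le.1 hb).1
        have h5 : E = m * (N + 1) + b := by rw [hE, k1]
        have h6 : (m : ℤ) - 1 ≤ E := by
          rw [h5]
          nlinarith
        omega
      have hb' : b = -(m * N + 1) := by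
        rw [k1] at hE
        linear_combination k2 - hE
      refine ⟨k1, hb', ?_⟩
      rw [k1, hI', hb'] at hI
      linear_combination hI
    · -- the third row
      right
      have hmain' : ((m : ℝ) - 1) ≤ a * (1 - (m - 1) * s3) + (m - 1) * (E * s) := by
        have : (I : ℝ) = 1 := by rw [hI']; simp
        rw [this, mul_one] at hmain
        exact hmain
      have k2 : a = m - 1 := by
        by_contra hne
        have h4 : a ≤ m - 2 := by omega
        have h5 : (a : ℝ) ≤ m - 2 := by exact_mod_cast h4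
        have h6 : (a : ℝ) * (1 - (m - 1) * s3) ≤ (m - 2) * (1 - (m - 1) * s3) :=
          mul_le_mul_of_nonneg_right h5 hpos3.le
        nlinarith
      have k2R : (a : ℝ) = m - 1 := by rw [k2]; push_cast; ring
      have k3 : ((m : ℝ) - 1) * s3 ≤ E * s := by
        rw [k2R] at hmain'
        have h4 : ((m : ℝ) - 1) * ((m - 1) * s3) ≤ (m - 1) * (E * s) := by linarith
        exact le_of_mul_le_mul_left h4 (by linarith)
      have k4 : E = m - 1 := by
        have h4 : ((m : ℝ) - 1) * s ≤ E * s :=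
          (mul_le_mul_of_nonneg_left hs3 (by linarith)).trans k3
        have h5 : (m : ℝ) - 1 ≤ E := le_of_mul_le_mul_right h4 hs
        have h6 : (m : ℤ) - 1 ≤ E := by exact_mod_cast h5
        omega
      have k4R : (E : ℝ) = m - 1 := by rw [k4]; push_cast; ring
      have k5 : s = s3 := by
        rw [k4R] at k3
        exact le_antisymm hs3 (le_of_mul_le_mul_left k3 (by linarith))
      have hb' : b = -((m - 1) * N) := by
        rw [k2] at hE
        linear_combination k4 - hE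
      refine ⟨k2, hb', ?_, k5⟩
      rw [k2, hI', hb'] at hI
      linear_combination hI

end Pool.Agent.K3h2.MF
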