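import Pool.Agent.K3h2.MF.Loc

/-!
# Three consecutive rows
-/

set_option autoImplicit false

namespace Pool.Agent.K3h2.MF

/-- a rational root of a monic quadratic equation with integral coefficients is an integer -/
lemma rat_int {y : ℚ} {b c : ℤ} (h : y ^ 2 + b * y + c = 0) : ∃ z : ℤ, y = z := by
  have hden : (y.den : ℤ) ∣ y.num ^ 2 := by
    have hd : (y.den : ℚ) ≠ 0 := by exact_mod_cast y.den_ne_zero
    have h1 : y = y.num / y.den := (Rat.num_div_den y).symm
    rw [h1] at h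
    have h2 : ((y.num : ℚ)) ^ 2 = y.den * (-(b * y.num + c * y.den)) := by
      field_simp at h
      linear_combination h
    exact ⟨-(b * y.num + c * y.den), by exact_mod_cast h2⟩
  have h1 : y.den ∣ y.num.natAbs ^ 2 := by
    have := Int.natAbs_dvd_natAbs.2 hden
    rwa [Int.natAbs_natCast, Int.natAbs_pow] at this
  have h2 : y.den = 1 :=
    Nat.Coprime.eq_one_of_dvd ((Nat.Coprime.pow_left 2 y.reduced).symm) h1
  exact ⟨y.num, by rw [← Rat.num_div_den y, h2]; simp⟩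

lemma irr {a b c t : ℤ} {s : ℝ} (h0 : 0 < (a : ℝ) * s) (h1 : (a : ℝ) * s < 1)
    (h : (a : ℝ) * (t + s) ^ 2 + b * (t + s) + c = 0) : Irrational ((t : ℝ) + s) := by
  rintro ⟨q, hq⟩
  have h2 : (a : ℚ) * q ^ 2 + b * q + c = 0 := by
    rw [← hq] at h
    exact_mod_cast h
  obtain ⟨z, hz⟩ := rat_int (y := (a : ℚ) * q) (b := b) (c := a * c)
    (by push_cast; linear_combination (a : ℚ) * h2)
  have h3 : (a : ℝ) * s = ((z - a * t : ℤ) : ℝ) := by
    have h4 : (a : ℝ) * q = z := by exact_mod_cast hz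
    push_cast
    rw [hq] at h4
    linear_combination h4
  rw [h3] at h0 h1
  have h5 : (0 : ℤ) < z - a * t := by exact_mod_cast h0
  have h6 : z - a * t < (1 : ℤ) := by exact_mod_cast h1
  omega

/-- the first row -/
def R1 (m N : ℕ) (x : EReal) : Row := ⟨1, -(N + m + 1), m * N + 1, x⟩

/-- the second row -/
def R2 (m N : ℕ) (x : EReal) : Row := ⟨m, -(m * N + 1), -((m - 1) * N + m ^ 2), x⟩

/-- the third row -/
def R3 (m N : ℕ) (x : EReal) : Row := ⟨m - 1, -((m - 1) * N), -((m - 1) * N + (m ^ 2 - m + 1)), x⟩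

lemma det_rows (m N : ℕ) (x y z : EReal) : det (R1 m N x) (R2 m N y) (R3 m N z) = -m := by
  unfold det R1 R2 R3
  rw [Matrix.det_fin_three]
  simp
  ring

section

variable {m N : ℕ} (hm : 2 ≤ m) (hN : m ^ 2 * (m + 1) ≤ N)

lemma to_real {s : ℝ} (N : ℕ) : (((N : ℤ) + 1 : ℤ) : ℝ) + s = (N : ℝ) + 1 + s := by
  push_cast
  ring

include hm hN in
lemma quad1 {s1 : ℝ} (h1 : 0 < s1) (e1 : s1 * (((N : ℝ) + 1 - m) + 1 * s1) = m - 1) :
    IsQuadratic (m * N + 1) (R1 m N (((N : ℝ) + 1 + s1 : ℝ) : EReal)) := by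
  have hmR : (2 : ℝ) ≤ m := by exact_mod_cast hm
  have hNR : (m : ℝ) ^ 2 * (m + 1) ≤ N := by exact_mod_cast hN
  have hmZ : (2 : ℤ) ≤ m := by exact_mod_cast hm
  have hNZ : (m : ℤ) ^ 2 * (m + 1) ≤ N := by exact_mod_cast hN
  have g := s1_small hmR hNR h1 e1
  unfold R1 IsQuadratic
  refine ⟨le_rfl, ?_, ?_, ?_, ?_, (N : ℝ) + 1 + s1, by positivity, ?_, ?_, rfl⟩
  · push_cast
    nlinarith
  · rw [abs_neg, abs_of_nonneg (by positivity)]
    push_cast
    nlinarith
  · rw [abs_of_nonneg (by positivity)]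
    push_cast
    exact le_rfl
  · intro d hd _ _
    exact isUnit_of_dvd_one hd
  · rw [← to_real]
    apply irr (a := 1) (b := -(N + m + 1)) (c := m * N + 1)
    · push_cast
      linarith
    · push_cast
      nlinarith
    · push_cast
      linear_combination e1
  · push_cast
    linear_combination e1

include hm hN in
lemma quad2 {s2 s3 : ℝ} (h2 : 0 < s2) (h23 : s2 < s3) (g : s3 * ((m : ℝ) * (m + 1)) < 1)
    (e2 : s2 * ((m * ((N : ℝ) + 1) + m - 1) + m * s2) = m * (m - 1) + 1) :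
    IsQuadratic (m * N + 1) (R2 m N (((N : ℝ) + 1 + s2 : ℝ) : EReal)) := by
  have hmR : (2 : ℝ) ≤ m := by exact_mod_cast hm
  have hNR : (m : ℝ) ^ 2 * (m + 1) ≤ N := by exact_mod_cast hN
  have hmZ : (2 : ℤ) ≤ m := by exact_mod_cast hm
  have hNZ : (m : ℤ) ^ 2 * (m + 1) ≤ N := by exact_mod_cast hN
  have hN0 : (0 : ℤ) ≤ N := by positivity
  unfold R2 IsQuadratic
  refine ⟨?_, ?_, ?_, ?_, ?_, (N : ℝ) + 1 + s2, by positivity, ?_, ?_, rfl⟩
  · change (1 : ℤ) ≤ m
    linarith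
  · push_cast
    change (m : ℤ) ≤ m * N + 1
    nlinarith
  · rw [abs_neg, abs_of_nonneg (by positivity)]
    push_cast
    exact le_rfl
  · change |-(((m : ℤ) - 1) * N + m ^ 2)| ≤ _
    rw [abs_neg, abs_of_nonneg (by nlinarith)]
    push_cast
    nlinarith
  · intro d hd hd2 _
    change d ∣ (m : ℤ) at hd
    change d ∣ -((m : ℤ) * N + 1) at hd2
    apply isUnit_of_dvd_one
    have h3 := dvd_add (hd.mul_right N) hd2
    have h4 : (m : ℤ) * N + -(m * N + 1) = -1 := by ring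
    rw [h4, dvd_neg] at h3
    exact h3
  · rw [← to_real]
    apply irr (a := m) (b := -(m * N + 1)) (c := -((m - 1) * N + m ^ 2))
    · push_cast
      positivity
    · push_cast
      nlinarith
    · push_cast
      linear_combination e2
  · push_cast
    linear_combination e2

include hm hN in
lemma quad3 {s3 : ℝ} (h3 : 0 < s3) (g : s3 * ((m : ℝ) * (m + 1)) < 1)
    (e3 : s3 * (((m : ℝ) - 1) * (N + 2) + (m - 1) * s3) = (m - 1) * (m - 1) + 1) :
    IsQuadratic (m * N + 1) (R3 m N (((N : ℝ) + 1 + s3 : ℝ) : EReal)) := by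
  have hmR : (2 : ℝ) ≤ m := by exact_mod_cast hm
  have hNR : (m : ℝ) ^ 2 * (m + 1) ≤ N := by exact_mod_cast hN
  have hmZ : (2 : ℤ) ≤ m := by exact_mod_cast hm
  have hNZ : (m : ℤ) ^ 2 * (m + 1) ≤ N := by exact_mod_cast hN
  have hN0 : (0 : ℤ) ≤ N := by positivity
  unfold R3 IsQuadratic
  refine ⟨?_, ?_, ?_, ?_, ?_, (N : ℝ) + 1 + s3, by positivity, ?_, ?_, rfl⟩
  · change (1 : ℤ) ≤ m - 1
    linarith
  · push_cast
    change (m : ℤ) - 1 ≤ m * N + 1
    nlinarith
  · change |-(((m : ℤ) - 1) * N)| ≤ _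
    rw [abs_neg, abs_of_nonneg (mul_nonneg (by linarith) hN0)]
    push_cast
    nlinarith
  · change |-(((m : ℤ) - 1) * N + (m ^ 2 - m + 1))| ≤ _
    rw [abs_neg, abs_of_nonneg (by nlinarith)]
    push_cast
    nlinarith
  · intro d hd hd2 hd3
    change d ∣ (m : ℤ) - 1 at hd
    change d ∣ -(((m : ℤ) - 1) * N + (m ^ 2 - m + 1)) at hd3
    apply isUnit_of_dvd_one
    have h4 := dvd_add (hd.mul_right (N + m)) hd3
    have h5 : ((m : ℤ) - 1) * (N + m) + -((m - 1) * N + (m ^ 2 - m + 1)) = -1 := by ring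
    rw [h5, dvd_neg] at h4
    exact h4
  · rw [← to_real]
    apply irr (a := m - 1) (b := -((m - 1) * N)) (c := -((m - 1) * N + (m ^ 2 - m + 1)))
    · push_cast
      have : (0 : ℝ) < (m : ℝ) - 1 := by linarith
      positivity
    · push_cast
      nlinarith
    · push_cast
      linear_combination e3
  · push_cast
    linear_combination e3

end

end Pool.Agent.K3h2.MF
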